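import Pool.Agent.W617.LG.StmI

/-! LG-JF: the family `J_t`. -/

set_option autoImplicit false

open Topology Filter Set Matrix
open scoped ContDiff InnerProductSpace

namespace Pool.Agent.W828.LG

open Pool.Agent.W617.LG

theorem abs_lemma {F R : Type*} [NormedAddCommGroup F] [NormedSpace ℝ F] [NormedRing R]
    [NormedAlgebra ℝ R] [HasSummableGeomSeries R] (f g : F → R) (f' g' : F →L[ℝ] R) (x : F)
    (hf : HasFDerivAt f f' x) (hg : HasFDerivAt g g' x) (hu : IsUnit (g x)) :
    ∃ L : F →L[ℝ] R, HasFDerivAt (fun x => f x * Ring.inverse (g x)) L x ∧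
      ∀ v, L v = f' v * Ring.inverse (g x) -
        f x * (Ring.inverse (g x) * g' v * Ring.inverse (g x)) := by
  obtain ⟨u, hu⟩ := hu
  have hui : ((u⁻¹ : Rˣ) : R) = Ring.inverse (g x) := by rw [← hu, Ring.inverse_unit]
  have h4 := hasFDerivAt_ringInverse (𝕜 := ℝ) u
  rw [hui, hu] at h4
  have h5 := hf.mul' (h4.comp x hg)
  refine ⟨_, h5, fun v => ?_⟩
  simp [sub_eq_add_neg, add_comm, mul_assoc]

theorem jf : S_JF := by
  intro q G M N A Y hT
  have hP : ∀ x, x ≠ 0 → IsUnit (A * N 1 (Y x)) := fun x hx =>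
    hT.unitA.mul (hT.nf.unit 1 (Y x) (hT.Y0 x hx))
  have hPi : ∀ x, x ≠ 0 → Ring.inverse (A * N 1 (Y x)) * (A * N 1 (Y x)) = 1 := fun x hx =>
    Ring.inverse_mul_cancel _ (hP x hx)
  refine ⟨?_, ?_, ?_⟩
  · intro t x hx
    have hy : Y x ≠ 0 := hT.Y0 x hx
    set y := Y x with hydef
    set P : E q →L[ℝ] E q := A * N 1 y with hPdef
    have hYd : HasFDerivAt Y (Ring.inverse P) x := hT.Yder x hx
    have hinv : Ring.inverse P * P = 1 := hPi x hx
    have h1 : HasFDerivAt (fun x => N (1 - t) (Y x))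
        (((1 - t) • ((ContinuousLinearMap.compL ℝ (E q) (E q) (E q) (N (1 - t) y)).comp
          (M y))).comp (Ring.inverse P)) x :=
      (hT.nf.der (1 - t) y hy).comp x hYd
    have h2 : HasFDerivAt (fun x => N 1 (Y x))
        (((1 : ℝ) • ((ContinuousLinearMap.compL ℝ (E q) (E q) (E q) (N 1 y)).comp
          (M y))).comp (Ring.inverse P)) x :=
      (hT.nf.der 1 y hy).comp x hYd
    have h3 : HasFDerivAt (fun x => A * N 1 (Y x))
        ((ContinuousLinearMap.compL ℝ (E q) (E q) (E q) A).comp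
        (((1 : ℝ) • ((ContinuousLinearMap.compL ℝ (E q) (E q) (E q) (N 1 y)).comp
          (M y))).comp (Ring.inverse P))) x :=
      (ContinuousLinearMap.compL ℝ (E q) (E q) (E q) A).hasFDerivAt.comp x h2
    obtain ⟨L, hL1, hL2⟩ := abs_lemma (R := (E q →L[ℝ] E q)) _ _ _ _ x h1 h3 (hP x hx)
    refine hL1.congr_fderiv ?_
    apply ContinuousLinearMap.ext
    intro v
    rw [hL2 v]
    apply ContinuousLinearMap.ext
    intro w
    have hc : ∀ z : E q, Ring.inverse P (P z) = z := by
      intro z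
      have := congrArg (fun T : E q →L[ℝ] E q => T z) hinv
      simpa using this
    have hPN : ∀ z : E q, A (N 1 y z) = P z := fun z => rfl
    have e1 : (((((1 - t) • ((ContinuousLinearMap.compL ℝ (E q) (E q) (E q) (N (1 - t) y)).comp
        (M y))).comp (Ring.inverse P)) v * Ring.inverse P -
        N (1 - t) y * (Ring.inverse P * (((ContinuousLinearMap.compL ℝ (E q) (E q) (E q) A).comp
        (((1 : ℝ) • ((ContinuousLinearMap.compL ℝ (E q) (E q) (E q) (N 1 y)).comp
          (M y))).comp (Ring.inverse P))) v) * Ring.inverse P)) : E q →L[ℝ] E q) w =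
        (1 - t) • N (1 - t) y (M y (Ring.inverse P v) (Ring.inverse P w)) -
          N (1 - t) y (Ring.inverse P (A ((1 : ℝ) • N 1 y (M y (Ring.inverse P v)
            (Ring.inverse P w))))) := rfl
    have e2 : (t • ((ContinuousLinearMap.compL ℝ (E q) (E q) (E q)
        (N (1 - t) y * Ring.inverse P)).comp (CC M N A Y x))) v w =
        t • N (1 - t) y (Ring.inverse P (-(P (M y (Ring.inverse P v) (Ring.inverse P w))))) := rfl
    refine e1.trans (Eq.trans ?_ e2.symm)
    rw [one_smul, hPN, map_neg, hc, map_neg]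
    module
  · intro t x hx
    exact (hT.nf.unit _ _ (hT.Y0 x hx)).mul (hP x hx).ringInverse
  · intro t x x' hx hx' h
    have key : ∀ z, z ≠ 0 → Ring.inverse (A * N 1 (Y z)) z = Y z := by
      intro z hz
      have h1 := congrArg (fun T : E q →L[ℝ] E q => T (Y z)) (hPi z hz)
      have h2 : (Ring.inverse (A * N 1 (Y z)) * (A * N 1 (Y z))) (Y z) =
          Ring.inverse (A * N 1 (Y z)) (A (N 1 (Y z) (Y z))) := rfl
      simp only [h2, hT.Yinv z hz] at h1
      exact h1
    have h1 : N (1 - t) (Y x) (Y x) = N (1 - t) (Y x') (Y x') := by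
      have h2 : N (1 - t) (Y x) (Ring.inverse (A * N 1 (Y x)) x) =
          N (1 - t) (Y x') (Ring.inverse (A * N 1 (Y x')) x') := h
      rw [key x hx, key x' hx'] at h2
      exact h2
    have h3 := hT.inj (1 - t) (Y x) (Y x') (hT.Y0 x hx) (hT.Y0 x' hx') h1
    calc x = A (N 1 (Y x) (Y x)) := (hT.Yinv x hx).symm
      _ = A (N 1 (Y x') (Y x')) := by rw [h3]
      _ = x' := hT.Yinv x' hx'

end Pool.Agent.W828.LG
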